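import Pool.Agent.Y114.RM.Stm
import Pool.Agent.TH731.J1772

/-! # Project RM: GEN -/

set_option autoImplicit false

universe u v

namespace Pool.Agent.Y434.RM.Gen

open Module Pool.Agent.Y114.RM

variable {K : Type u} [Field K] {M : Type v} [AddCommGroup M] [Module K M]

theorem h_pow (e h : End K M) (h2 : h * e - e * h = 2 • e) (k : ℕ) :
    h * e ^ k = e ^ k * h + ((2 * k : ℕ) : K) • e ^ k := by
  have h2' : h * e = e * h + (2 : K) • e := by
    have : (2 : K) • e = 2 • e := by rw [two_smul, two_smul]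
    rw [this, ← h2]; abel
  induction k with
  | zero => simp
  | succ k ih =>
    rw [pow_succ, ← mul_assoc, ih, add_mul, mul_assoc, h2', smul_mul_assoc, mul_add,
      mul_smul_comm, ← mul_assoc]
    push_cast
    module

/-- the space `ker e ∩ range (e ^ k)` -/
def XX (e : End K M) (k : ℕ) : Submodule K M := LinearMap.ker e ⊓ LinearMap.range (e ^ k)

theorem h_XX (e h : End K M) (h2 : h * e - e * h = 2 • e) (k : ℕ) (x : M) (hx : x ∈ XX e k) :
    h x ∈ XX e k := by
  obtain ⟨h3, y, hy⟩ := hx
  rw [SetLike.mem_coe, LinearMap.mem_ker] at h3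
  refine ⟨?_, ?_⟩
  · rw [SetLike.mem_coe, LinearMap.mem_ker]
    have := congrArg (fun T : End K M => T x) h2
    simp only [LinearMap.sub_apply, Module.End.mul_apply, h3, map_zero, zero_sub,
      LinearMap.smul_apply, smul_zero, neg_eq_zero] at this
    exact this
  · refine ⟨h y + ((2 * k : ℕ) : K) • y, ?_⟩
    have := congrArg (fun T : End K M => T y) (h_pow e h h2 k)
    simp only [Module.End.mul_apply, LinearMap.add_apply, LinearMap.smul_apply] at this
    rw [map_add, map_smul, ← this, hy]

theorem inj_XX [CharZero K] (e f h : End K M) (h1 : e * f - f * e = h)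
    (h2 : h * e - e * h = 2 • e) (hn : IsNilpotent e) (k j : ℕ) (hj : j < k) (x : M)
    (hx : x ∈ XX e k) (hh : h x = (j : K) • x) : x = 0 := by
  obtain ⟨h3, h4⟩ := hx
  rw [SetLike.mem_coe, LinearMap.mem_ker] at h3
  have key : ∀ i, k ≤ i → ∃ u, (e ^ i) u = x := by
    intro i hi
    induction i, hi using Nat.le_induction with
    | base => exact h4
    | succ i hi ih =>
      obtain ⟨u, hu⟩ := ih
      have h5 : (e ^ (i + 1)) u = 0 := by rw [pow_succ', Module.End.mul_apply, hu, h3]
      have h6 := congrArg (fun T : End K M => T u) (Pool.Agent.TH731.JM.pow_sl2 e f h h1 h2 i)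
      simp only [LinearMap.sub_apply, Module.End.mul_apply, h5, map_zero, sub_zero,
        LinearMap.smul_apply, hu, hh, Module.End.one_apply] at h6
      have h7 : (e ^ (i + 1)) (f u) = (((i + 1 : ℕ) : K) * ((j : K) - i)) • x := by
        rw [h6]; module
      have h8 : (((i + 1 : ℕ) : K) * ((j : K) - i)) ≠ 0 := by
        refine mul_ne_zero (by exact_mod_cast Nat.succ_ne_zero i) ?_
        rw [sub_ne_zero]
        exact_mod_cast (by omega : j ≠ i)
      refine ⟨(((i + 1 : ℕ) : K) * ((j : K) - i))⁻¹ • f u, ?_⟩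
      rw [map_smul, h7, smul_smul, inv_mul_cancel₀ h8, one_smul]
  obtain ⟨N, hN⟩ := hn
  obtain ⟨u, hu⟩ := key (k + N) (by omega)
  rw [← hu, pow_add, hN, mul_zero, LinearMap.zero_apply]

/-- the formula for `e ^ k f ^ k` on the kernel of `e` -/
theorem ef_pow (e f h : End K M) (h1 : e * f - f * e = h)
    (h2 : h * e - e * h = 2 • e) (h3 : h * f - f * h = -(2 • f)) (i : ℕ) (x : M) (hx : e x = 0) :
    (e ^ (i + 1)) ((f ^ (i + 1)) x) = ((i + 1 : ℕ) : K) • (h ((e ^ i) ((f ^ i) x)) -
      (i : K) • (e ^ i) ((f ^ i) x)) := by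
  have a1 := Pool.Agent.TH731.JM.pow_sl2 f e (-h) (by rw [← h1]; abel)
    (by rw [← neg_inj, ← h3]; noncomm_ring) i
  have a2 := congrArg (fun T : End K M => T x) a1
  simp only [LinearMap.sub_apply, Module.End.mul_apply, hx, map_zero, zero_sub,
    LinearMap.smul_apply, Module.End.one_apply, LinearMap.neg_apply] at a2
  have a3 : e ((f ^ (i + 1)) x) = ((i + 1 : ℕ) : K) • (h ((f ^ i) x) + (i : K) • (f ^ i) x) := by
    rw [← neg_neg (e _), a2]; module
  have a4 := congrArg (fun T : End K M => T ((f ^ i) x)) (h_pow e h h2 i)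
  simp only [Module.End.mul_apply, LinearMap.add_apply, LinearMap.smul_apply] at a4
  rw [pow_succ (a := e), Module.End.mul_apply, a3, map_smul, map_add, map_smul]
  rw [a4]
  push_cast
  module

theorem surj_XX [CharZero K] [FiniteDimensional K M] (e f h : End K M) (h1 : e * f - f * e = h)
    (h2 : h * e - e * h = 2 • e) (h3 : h * f - f * h = -(2 • f)) (hn : IsNilpotent e) (k : ℕ) (x : M)
    (hx : x ∈ XX e k) : ∃ x' ∈ XX e k, (e ^ k) ((f ^ k) x') = x := by
  have key : ∀ i, i ≤ k → ∀ y ∈ XX e k, (e ^ i) ((f ^ i) y) ∈ XX e k ∧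
      ((e ^ i) ((f ^ i) y) = 0 → y = 0) := by
    intro i
    induction i with
    | zero => intro _ y hy; simpa using hy
    | succ i ih =>
      intro hi y hy
      obtain ⟨a1, a2⟩ := ih (by omega) y hy
      have hy0 : e y = 0 := hy.1
      rw [ef_pow e f h h1 h2 h3 i y hy0]
      refine ⟨Submodule.smul_mem _ _ (Submodule.sub_mem _ (h_XX e h h2 k _ a1)
        (Submodule.smul_mem _ _ a1)), fun h0 => a2 ?_⟩
      have h4 : ((i + 1 : ℕ) : K) ≠ 0 := by exact_mod_cast Nat.succ_ne_zero i
      have h5 := (smul_eq_zero.1 h0).resolve_left h4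
      exact inj_XX e f h h1 h2 hn k i (by omega) _ a1 (sub_eq_zero.1 h5)
  have hst : ∀ y ∈ XX e k, (e ^ k * f ^ k) y ∈ XX e k := fun y hy => (key k le_rfl y hy).1
  have hinj : Function.Injective ((e ^ k * f ^ k).restrict hst) := by
    rw [injective_iff_map_eq_zero]
    intro y hy
    have := congrArg Subtype.val hy
    rw [LinearMap.restrict_apply] at this
    exact Subtype.ext ((key k le_rfl y.1 y.2).2 this)
  obtain ⟨x', hx'⟩ := (LinearMap.injective_iff_surjective.1 hinj) ⟨x, hx⟩
  have := congrArg Subtype.val hx'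
  rw [LinearMap.restrict_apply] at this
  exact ⟨x'.1, x'.2, this⟩

/-- GEN -/
theorem gen : S_GEN.{u, v} := by
  intro K _ _ M _ _ _ e f h h1 h2 h3 hn W hf hh hker
  have key : ∀ k, LinearMap.ker (e ^ k) ≤ W := by
    intro k
    induction k with
    | zero =>
      intro x hx
      rw [LinearMap.mem_ker, pow_zero, Module.End.one_apply] at hx
      rw [hx]
      exact W.zero_mem
    | succ k ih =>
      intro x hx
      rw [LinearMap.mem_ker, pow_succ', Module.End.mul_apply] at hx
      obtain ⟨x', a1, a2⟩ := surj_XX e f h h1 h2 h3 hn k ((e ^ k) x) ⟨hx, x, rfl⟩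
      have a3 : x' ∈ W := hker a1.1
      have a4 : ∀ i, (f ^ i) x' ∈ W := by
        intro i
        induction i with
        | zero => simpa using a3
        | succ i ihi => rw [pow_succ', Module.End.mul_apply]; exact hf _ ihi
      have a5 : x - (f ^ k) x' ∈ W := by
        apply ih
        rw [LinearMap.mem_ker, map_sub, a2, sub_self]
      have := W.add_mem a5 (a4 k)
      rwa [sub_add_cancel] at this
  obtain ⟨N, hN⟩ := hn
  rw [eq_top_iff]
  intro x _
  apply key N
  rw [LinearMap.mem_ker, hN, LinearMap.zero_apply]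


end Pool.Agent.Y434.RM.Gen
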